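import Pool.Agent.Helper98.LC.Eig

/-!
# A leaky curve whose operator has a double eigenvalue below the essential spectrum

For the operator `-Δ - α δ(x - Γ)` in the plane it is not true that every eigenvalue below
`-α² / 4` is simple: there are `α > 0` and an arc-length parametrised curve `γ`, equal to a straight
line outside a bounded set, which satisfies (a1), (a2), (a3), such that the operator has an
eigenvalue `E < -α² / 4` with two linearly independent eigenfunctions.

Idea of the proof. With `E = -1` and `α = 1 / lam` the eigenvalue equation says that `lam` is an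
eigenvalue of the form `∫_Γ |φ|²` relative to the `H¹` norm. Let `Γ_t` be the graph of an even
piecewise linear function: a straight line with `2k` teeth of height `1` and total width `4k/D` next
to the axis of symmetry, and with `p` teeth of height `t h`, `h = 1 / (2p)`, next to each of the
abscissas `2` and `-2`. The form depends continuously on `t`. Let `top t` be the largest value for
odd functions and `sec t` the second min-max value for even functions.
At `t = 0` odd functions are small on the teeth, so `top 0 ≤ 3/2`, while two even bumps on the axis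
give `sec t ≥ 2` for all `t` if `k` is large. At `t = 1` the side teeth have total length of order
one inside a square of side `h`; since points have zero capacity, `top 1` is as large as we please
when `h` is small, while `sec 1 ≤ 2k + 17` by a Poincaré inequality. So `top t = sec t =: lam ≥ 2`
for some `t`. Since the form is at most `3/2` times the squared norm on a subspace of finite
codimension, both values are attained, at an odd and at an even eigenfunction.

The definitions used in the statement are `euc`, `IsArcLengthCurve`, `IsTest`, `dx`, `dy`,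
`HasGradTrace`, `IsEigenfunction` in `Pool/Agent/Helper98/LC/Defs.lean`, and `Admissible` below.
-/

set_option autoImplicit false

open MeasureTheory Set
open scoped ContDiff InnerProductSpace ComplexConjugate

namespace Pool.Agent.Results.MP_e4073d_mp.DoubleEigenvalue

open Pool.Agent.Helper98.LC

/-- The hypotheses on the curve: it is continuous, piecewise `C¹` and parametrised by arc length,
chords are not longer than arcs, and (a1), (a2), (a3) hold. -/
structure Admissible (γ : ℝ → ℝ × ℝ) : Prop where
  curve : IsArcLengthCurve γ
  chord : ∀ s s' : ℝ, euc (γ s) (γ s') ≤ |s - s'|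
  a1 : ∃ c ∈ Ioo (0 : ℝ) 1, ∀ s s' : ℝ, c * |s - s'| ≤ euc (γ s) (γ s')
  a2 : ∃ d > (0 : ℝ), ∃ μ > (1 / 2 : ℝ), ∃ om ∈ Ioo (0 : ℝ) 1, ∀ s s' : ℝ, s ≠ s' →
    om < s / s' → s / s' < om⁻¹ →
    1 - euc (γ s) (γ s') / |s - s'| ≤ d * (1 + |s + s'| ^ (2 * μ)) ^ (-(1 / 2) : ℝ)
  a3 : ∃ s s' : ℝ, euc (γ s) (γ s') < |s - s'|

/-- There are `α > 0` and an admissible curve such that the operator `-Δ - α δ(x - Γ)` has an
eigenvalue `E` below `-α² / 4` with two linearly independent eigenfunctions. -/
theorem result : ∃ (α : ℝ) (γ : ℝ → ℝ × ℝ), 0 < α ∧ Admissible γ ∧ ∃ E : ℝ, E < -(α ^ 2 / 4) ∧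
    ∃ ψ₁ ψ₂ : Lp ℂ 2 (volume : Measure (ℝ × ℝ)),
      IsEigenfunction α γ E ψ₁ ∧ IsEigenfunction α γ E ψ₂ ∧ LinearIndependent ℂ ![ψ₁, ψ₂] := by
  obtain ⟨m, t, lam, hlam, ⟨v, hv1, hv⟩, ⟨w, hw1, hw⟩⟩ := exists_cross
  have hlam0 : 0 < lam := by linarith
  refine ⟨1 / lam, (m.fam t).prof.γ, by positivity,
    ⟨(m.fam t).prof.isArcLengthCurve, (m.fam t).prof.euc_le, (m.fam t).prof.a1,
      (m.fam t).prof.a2, (m.fam t).prof.a3 (three_lt_S m t)⟩, -1, ?_,
    comp 1 0 v, comp (-1) 0 w, ?_, ?_, linInd hv1 hw1⟩
  · have h1 : (1 / lam) ≤ 1 / 2 := one_div_le_one_div_of_le (by norm_num) hlam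
    have h2 : 0 < 1 / lam := by positivity
    nlinarith
  · exact_mod_cast isEigenfunction (e := 1) (e' := -1) m hlam0 (by simp) (by simp) (by simp)
      (by simp) (by simp) hv
  · exact_mod_cast isEigenfunction (e := -1) (e' := 1) m hlam0 (by simp) (by simp) (by simp)
      (by simp) (by simp) hw

end Pool.Agent.Results.MP_e4073d_mp.DoubleEigenvalue
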